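import Pool.Agent.H88.FC.Count
import Pool.Agent.H95.FX.Rot
import Pool.Agent.H95.FX.Ratio
import Pool.Agent.H95.FX.Sym
import Pool.Agent.H95.FX.Short
import Pool.Agent.H95.FX.Cov
import Pool.Agent.H95.FX.Gr
import Pool.Agent.H95.FX.Exc
import Pool.Agent.H95.FX.Build
import Pool.Agent.H95.FX.Num

/-!
# Forcibly connected graphical partitions by largest part: the right branch

`F n D` (file `Pool/Agent/H88/FC/Count.lean`) is the number of forcibly connected graphical
partitions of `n` whose largest part is `D`. For all even `n` it is nonincreasing in `D` on the
range `D ≥ min (n / 3) (100 √n log n)`.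
-/

namespace Pool.Agent.Results.MP_c916f9_co.RightBranch

open Pool.Agent.H88.FC Pool.Agent.H95.FX

/-- The exceptional partitions are fewer than the partitions outside the image of the map. -/
theorem scount : SCount :=
  count_of rot (cov mono fsum len fro_surj ffin) (short ffin) (exc mono)
    (build len fsum fsort fpos finj ffin gr guniv giso) (num mono (powP mono ratio))

/-- MAIN THEOREM. For every even `n` and every `D ≥ min (n / 3) (100 √n log n)` the number of
forcibly connected graphical partitions of `n` with largest part `D + 1` is at most the number of
those with largest part `D`. -/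
theorem result :
    ∀ n D : ℕ, Even n → min ((n : ℝ) / 3) (100 * √(n : ℝ) * Real.log n) ≤ D →
      F n (D + 1) ≤ F n D := by
  intro n D hn hD
  rcases min_le_iff.mp hD with h | h
  · apply F_succ_le
    have h1 : (n : ℝ) ≤ 3 * D := by linarith
    exact_mod_cast h1
  · exact branch_of_count scount hn h

end Pool.Agent.Results.MP_c916f9_co.RightBranch
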