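import Pool.Agent.H88.FC.Strict

/-!
Forcibly connected graphical partitions: from one third of n on, the numbers F(n, D) are
strictly decreasing in D up to n / 2, and F(n + 2, D + 1) = F(n, D).
-/

namespace Pool.Agent.Results.MP_c916f9_co.TailMono

open Pool.Agent.H88.FC

/-- The set of the forcibly connected graphical partitions of n whose largest part is D. -/
def FCset (n D : ℕ) : Set n.Partition :=
  {p | ForciblyConnected p.parts ∧ D ∈ p.parts ∧ ∀ y ∈ p.parts, y ≤ D}

/-- F(n, D): the number of the forcibly connected graphical partitions of n with largest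
part D. -/
noncomputable def F (n D : ℕ) : ℕ := (FCset n D).ncard

theorem ncard_le_of_rel {α β : Type*} [Finite β] {A : Set α} {B : Set β} (R : α → β → Prop)
    (hex : ∀ a ∈ A, ∃ b ∈ B, R a b)
    (hinj : ∀ a a' b, R a b → R a' b → a = a') : A.ncard ≤ B.ncard := by
  classical
  rcases A.eq_empty_or_nonempty with h0 | ⟨a0, ha0⟩
  · rw [h0, Set.ncard_empty]
    exact Nat.zero_le _
  have hne : Nonempty β := ⟨(hex a0 ha0).choose⟩
  choose! g hg using hex
  apply Set.ncard_le_ncard_of_injOn g (fun a ha => (hg a ha).1) ?_ (Set.toFinite _)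
  intro a ha a' ha' h
  apply hinj a a' (g a) (hg a ha).2
  rw [h]
  exact (hg a' ha').2

theorem F_succ_le {n D : ℕ} (hn : n ≤ 3 * D) : F n (D + 1) ≤ F n D := by
  apply ncard_le_of_rel (fun p q => R1 D p.parts q.parts)
  · rintro p ⟨hfc, hmem, hmax⟩
    obtain ⟨m', hR, hsum, hpos, hmem', hmax', hfc'⟩ := move_exists hn p.parts_sum
      (fun y hy => p.parts_pos hy) hmem hmax hfc
    exact ⟨⟨m', fun {i} hi => hpos i hi, hsum⟩, ⟨hfc', hmem', hmax'⟩, hR⟩
  · intro p p' q h h'
    exact Nat.Partition.ext (R1_inj h h')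

theorem F_leaf {n D : ℕ} (hn : n ≤ 3 * D) (hD : 0 < D) : F (n + 2) (D + 1) = F n D := by
  apply le_antisymm
  · apply ncard_le_of_rel (fun p q => R2 D q.parts p.parts)
    · rintro p ⟨hfc, hmem, hmax⟩
      obtain ⟨m', hR, hsum, hpos, hmem', hmax', hfc'⟩ := leaf_down hn hD p.parts_sum
        (fun y hy => p.parts_pos hy) hmem hmax hfc
      exact ⟨⟨m', fun {i} hi => hpos i hi, hsum⟩, ⟨hfc', hmem', hmax'⟩, hR⟩
    · intro p p' q h h'
      exact Nat.Partition.ext (R2_inj' h h')
  · apply ncard_le_of_rel (fun p q => R2 D p.parts q.parts)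
    · rintro p ⟨hfc, hmem, hmax⟩
      obtain ⟨m', hR, hsum, hpos, hmem', hmax', hfc'⟩ := leaf_up hn hD p.parts_sum
        (fun y hy => p.parts_pos hy) hmem hmax hfc
      exact ⟨⟨m', fun {i} hi => hpos i hi, hsum⟩, ⟨hfc', hmem', hmax'⟩, hR⟩
    · intro p p' q h h'
      exact Nat.Partition.ext (R2_inj h h')

theorem F_succ_lt {n D t : ℕ} (hn : n ≤ 3 * D) (ht1 : 1 ≤ t) (hnt : n = 2 * D + 2 * t) :
    F n (D + 1) < F n D := by
  obtain ⟨m, hsum, hpos, hmem, hmax, hfc, hnot⟩ := exists_new hn ht1 hnt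
  set q : n.Partition := ⟨m, fun {i} hi => hpos i hi, hsum⟩ with hq
  have hqmem : q ∈ FCset n D := ⟨hfc, hmem, hmax⟩
  have h1 : F n (D + 1) ≤ (FCset n D \ {q}).ncard := by
    apply ncard_le_of_rel (fun p q => R1 D p.parts q.parts)
    · rintro p ⟨hfc, hmem, hmax⟩
      obtain ⟨m', hR, hsum', hpos', hmem', hmax', hfc'⟩ := move_exists hn p.parts_sum
        (fun y hy => p.parts_pos hy) hmem hmax hfc
      refine ⟨⟨m', fun {i} hi => hpos' i hi, hsum'⟩, ⟨⟨hfc', hmem', hmax'⟩, ?_⟩, hR⟩
      intro h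
      have h2 : m' = m := congrArg Nat.Partition.parts h
      rw [h2] at hR
      exact hnot _ hR
    · intro p p' q h h'
      exact Nat.Partition.ext (R1_inj h h')
  exact h1.trans_lt (Set.ncard_sdiff_singleton_lt_of_mem hqmem (Set.toFinite _))

theorem F_stable {t n : ℕ} (hn1 : 1 ≤ n) (hn : 3 * t ≤ n) :
    F (2 * n) (n - t) = F (2 * (3 * t + 1)) (3 * t + 1 - t) := by
  have step : ∀ k : ℕ, 1 ≤ k → 3 * t ≤ k → F (2 * (k + 1)) (k + 1 - t) = F (2 * k) (k - t) := by
    intro k hk1 hk
    have h1 := F_leaf (n := 2 * k) (D := k - t) (by omega) (by omega)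
    have e1 : 2 * k + 2 = 2 * (k + 1) := by ring
    have e2 : k - t + 1 = k + 1 - t := by omega
    rw [e1, e2] at h1
    exact h1
  rcases Nat.lt_or_ge n (3 * t + 1) with h | h
  · have hn' : n = 3 * t := by omega
    subst hn'
    exact (step (3 * t) hn1 (le_refl _)).symm
  · induction n, h using Nat.le_induction with
    | base => rfl
    | succ k hk ih =>
      rw [step k (by omega) (by omega)]
      exact ih (by omega) (by omega)

/-- MAIN THEOREM. There is one strictly increasing sequence a(0), a(1), a(2), ... such that, for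
all n and t with n at least 1 and n at least 3 t, the number of the forcibly connected graphical
partitions of 2 n with largest part n - t is a(t). -/
theorem result :
    ∃ a : ℕ → ℕ, StrictMono a ∧
      ∀ n t : ℕ, 1 ≤ n → 3 * t ≤ n → F (2 * n) (n - t) = a t := by
  refine ⟨fun t => F (2 * (3 * t + 1)) (3 * t + 1 - t), ?_, ?_⟩
  · apply strictMono_nat_of_lt_succ
    intro t
    have h1 := F_stable (t := t) (n := 3 * (t + 1) + 1) (by omega) (by omega)
    change F (2 * (3 * t + 1)) (3 * t + 1 - t) <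
      F (2 * (3 * (t + 1) + 1)) (3 * (t + 1) + 1 - (t + 1))
    rw [← h1]
    have h2 := F_succ_lt (n := 2 * (3 * (t + 1) + 1)) (D := 3 * (t + 1) + 1 - (t + 1))
      (t := t + 1) (by omega) (by omega) (by omega)
    have e : 3 * (t + 1) + 1 - (t + 1) + 1 = 3 * (t + 1) + 1 - t := by omega
    rw [e] at h2
    exact h2
  · intro n t hn1 hn
    exact F_stable hn1 hn

end Pool.Agent.Results.MP_c916f9_co.TailMono
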